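import Pool.Agent.W558.S.Stms

set_option autoImplicit false
set_option linter.unusedVariables false

universe u

namespace Pool.Agent.W466.RS.Gr

open Pool.Agent.W558

section

variable {k A : Type u} [Field k] [CommRing A] [IsDomain A] [Algebra k A] {r : ℕ}
  (𝒜 : (Fin r → ℤ) → Submodule k A) [GradedAlgebra 𝒜]

/-- Homogeneous fractions of degree `d`. -/
def HF (d : Fin r → ℤ) (x : FractionRing A) : Prop :=
  ∃ e, ∃ a ∈ 𝒜 (d + e), ∃ b ∈ 𝒜 e, b ≠ 0 ∧
    x = algebraMap A (FractionRing A) a / algebraMap A (FractionRing A) b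

variable {𝒜}

theorem am_ne {b : A} (hb : b ≠ 0) : algebraMap A (FractionRing A) b ≠ 0 :=
  (FaithfulSMul.algebraMap_eq_zero_iff A (FractionRing A)).not.2 hb

theorem HF.mul {d d' : Fin r → ℤ} {x y : FractionRing A} (hx : HF 𝒜 d x) (hy : HF 𝒜 d' y) :
    HF 𝒜 (d + d') (x * y) := by
  obtain ⟨e, a, ha, b, hb, hb0, rfl⟩ := hx
  obtain ⟨e', a', ha', b', hb', hb0', rfl⟩ := hy
  refine ⟨e + e', a * a', ?_, b * b', SetLike.mul_mem_graded hb hb', mul_ne_zero hb0 hb0', ?_⟩
  · have h := SetLike.mul_mem_graded (A := 𝒜) ha ha'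
    have e1 : d + d' + (e + e') = d + e + (d' + e') := by abel
    rw [e1]; exact h
  · rw [map_mul, map_mul, div_mul_div_comm]

theorem HF.inv {d : Fin r → ℤ} {x : FractionRing A} (hx : HF 𝒜 d x) (h0 : x ≠ 0) :
    HF 𝒜 (-d) x⁻¹ := by
  obtain ⟨e, a, ha, b, hb, hb0, rfl⟩ := hx
  have ha0 : a ≠ 0 := by
    rintro rfl
    exact h0 (by rw [map_zero, zero_div])
  refine ⟨d + e, b, ?_, a, ha, ha0, by rw [inv_div]⟩
  have e1 : -d + (d + e) = e := by abel
  rw [e1]; exact hb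

theorem HF.one : HF 𝒜 0 (1 : FractionRing A) :=
  ⟨0, 1, by rw [add_zero]; exact SetLike.one_mem_graded 𝒜, 1, SetLike.one_mem_graded 𝒜, one_ne_zero,
    by rw [map_one, div_one]⟩

theorem HF.of_mem {d : Fin r → ℤ} {a : A} (ha : a ∈ 𝒜 d) :
    HF 𝒜 d (algebraMap A (FractionRing A) a) :=
  ⟨0, a, by rw [add_zero]; exact ha, 1, SetLike.one_mem_graded 𝒜, one_ne_zero,
    by rw [map_one, div_one]⟩

theorem HF.pow {d : Fin r → ℤ} {x : FractionRing A} (hx : HF 𝒜 d x) (n : ℕ) :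
    HF 𝒜 (n • d) (x ^ n) := by
  induction n with
  | zero => rw [zero_smul, pow_zero]; exact HF.one
  | succ n ih => rw [succ_nsmul, pow_succ]; exact ih.mul hx

theorem HF.zpow {d : Fin r → ℤ} {x : FractionRing A} (hx : HF 𝒜 d x) (h0 : x ≠ 0) (n : ℤ) :
    HF 𝒜 (n • d) (x ^ n) := by
  cases n with
  | ofNat n => rw [Int.ofNat_eq_natCast, natCast_zsmul, zpow_natCast]; exact hx.pow n
  | negSucc n =>
    rw [negSucc_zsmul, zpow_negSucc]
    exact (hx.pow (n + 1)).inv (pow_ne_zero _ h0)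

theorem HF.prod {σ : Type*} (s : Finset σ) (d : σ → (Fin r → ℤ)) (x : σ → FractionRing A)
    (h : ∀ i ∈ s, HF 𝒜 (d i) (x i)) : HF 𝒜 (∑ i ∈ s, d i) (∏ i ∈ s, x i) := by
  classical
  induction s using Finset.induction_on with
  | empty => rw [Finset.sum_empty, Finset.prod_empty]; exact HF.one
  | insert i s hi ih =>
    rw [Finset.sum_insert hi, Finset.prod_insert hi]
    exact (h i (Finset.mem_insert_self _ _)).mul
      (ih fun j hj => h j (Finset.mem_insert_of_mem hj))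

theorem HF.mem {x : FractionRing A} (hx : HF 𝒜 0 x) : x ∈ homFrac 𝒜 := by
  obtain ⟨e, a, ha, b, hb, hb0, rfl⟩ := hx
  rw [zero_add] at ha
  exact ⟨e, a, ha, b, hb, hb0, rfl⟩

theorem HF.of_mem_homFrac {x : FractionRing A} (hx : x ∈ homFrac 𝒜) : HF 𝒜 0 x := by
  obtain ⟨e, a, ha, b, hb, hb0, rfl⟩ := hx
  exact ⟨e, a, by rw [zero_add]; exact ha, b, hb, hb0, rfl⟩

/-- A common denominator. -/
theorem common {σ : Type*} (s : Finset σ) (d : σ → (Fin r → ℤ)) (x : σ → FractionRing A)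
    (h : ∀ i ∈ s, HF 𝒜 (d i) (x i)) :
    ∃ e, ∃ b ∈ 𝒜 e, b ≠ 0 ∧ ∀ i ∈ s, ∃ c ∈ 𝒜 (d i + e),
      algebraMap A (FractionRing A) b * x i = algebraMap A (FractionRing A) c := by
  classical
  induction s using Finset.induction_on with
  | empty => exact ⟨0, 1, SetLike.one_mem_graded 𝒜, one_ne_zero, by simp⟩
  | insert i s hi ih =>
    obtain ⟨e, b, hb, hb0, hs⟩ := ih fun j hj => h j (Finset.mem_insert_of_mem hj)
    obtain ⟨e', a', ha', b', hb', hb0', hx⟩ := h i (Finset.mem_insert_self _ _)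
    refine ⟨e + e', b * b', SetLike.mul_mem_graded hb hb', mul_ne_zero hb0 hb0', ?_⟩
    intro j hj
    rcases Finset.mem_insert.1 hj with rfl | hj
    · refine ⟨b * a', ?_, ?_⟩
      · have h1 := SetLike.mul_mem_graded (A := 𝒜) hb ha'
        have e1 : d j + (e + e') = e + (d j + e') := by abel
        rw [e1]; exact h1
      · rw [hx, map_mul, map_mul, mul_assoc, mul_div_cancel₀ _ (am_ne hb0')]
    · obtain ⟨c, hc, hc'⟩ := hs j hj
      refine ⟨c * b', ?_, ?_⟩
      · have h1 := SetLike.mul_mem_graded (A := 𝒜) hc hb'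
        rw [← add_assoc]; exact h1
      · rw [map_mul, map_mul, ← hc']; ring

/-- A vanishing sum of homogeneous elements of distinct degrees. -/
theorem sum_zero {σ : Type*} (s : Finset σ) (d : σ → (Fin r → ℤ)) (c : σ → A)
    (hd : Set.InjOn d s) (h : ∀ i ∈ s, c i ∈ 𝒜 (d i)) (h0 : ∑ i ∈ s, c i = 0) :
    ∀ i ∈ s, c i = 0 := by
  classical
  intro i hi
  have h1 : ((DirectSum.decompose 𝒜 (∑ j ∈ s, c j)) (d i) : A) = c i := by
    rw [DirectSum.decompose_sum, DFinsupp.finsetSum_apply, AddSubmonoidClass.coe_finsetSum,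
      Finset.sum_eq_single i]
    · rw [DirectSum.decompose_of_mem 𝒜 (h i hi), DirectSum.of_eq_same]
    · intro j hj hji
      rw [DirectSum.decompose_of_mem 𝒜 (h j hj), DirectSum.of_eq_of_ne]
      · rfl
      · exact fun e => hji (hd hj hi e.symm)
    · intro hi'; exact absurd hi hi'
  rw [h0] at h1
  rw [← h1, DirectSum.decompose_zero]
  rfl

theorem HF_sum_zero {σ : Type*} (s : Finset σ) (d : σ → (Fin r → ℤ)) (x : σ → FractionRing A)
    (hd : Set.InjOn d s) (h : ∀ i ∈ s, HF 𝒜 (d i) (x i)) (h0 : ∑ i ∈ s, x i = 0) :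
    ∀ i ∈ s, x i = 0 := by
  classical
  obtain ⟨e, b, hb, hb0, hs⟩ := common s d x h
  choose! c hc hc' using hs
  have h1 : ∑ i ∈ s, c i = 0 := by
    apply FaithfulSMul.algebraMap_injective A (FractionRing A)
    rw [map_sum, map_zero, ← Finset.sum_congr rfl hc', ← Finset.mul_sum, h0, mul_zero]
  have h2 := sum_zero s (fun i => d i + e) c (fun i hi j hj hij => hd hi hj (add_right_cancel hij))
    hc h1
  intro i hi
  have h3 := hc' i hi
  rw [h2 i hi, map_zero] at h3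
  exact (mul_eq_zero.1 h3).resolve_left (am_ne hb0)

theorem algInd {n : ℕ} (z : Fin n → FractionRing A) (l : Fin n → (Fin r → ℤ))
    (hl : LinearIndependent ℤ l) (hz : ∀ j, HF 𝒜 (l j) (z j)) (hz0 : ∀ j, z j ≠ 0) :
    AlgebraicIndependent (homFrac 𝒜) z := by
  classical
  rw [algebraicIndependent_iff]
  intro p hp
  rw [MvPolynomial.aeval_def, MvPolynomial.eval₂_eq] at hp
  have h1 := HF_sum_zero (𝒜 := 𝒜) p.support (fun m => ∑ j, (m j : ℤ) • l j)
    (fun m => algebraMap (homFrac 𝒜) (FractionRing A) (p.coeff m) *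
      ∏ i ∈ m.support, z i ^ m i) ?_ ?_ hp
  · refine MvPolynomial.ext _ _ fun m => ?_
    rw [MvPolynomial.coeff_zero]
    by_contra hm
    have h2 := h1 m (MvPolynomial.mem_support_iff.2 hm)
    rcases mul_eq_zero.1 h2 with h3 | h3
    · exact hm ((map_eq_zero (algebraMap (homFrac 𝒜) (FractionRing A))).1 h3)
    · obtain ⟨i, hi, h4⟩ := Finset.prod_eq_zero_iff.1 h3
      exact pow_ne_zero _ (hz0 i) h4
  · intro m hm m' hm' he
    have h3 : ∑ j, ((m j : ℤ) - (m' j : ℤ)) • l j = 0 := by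
      simp only [sub_smul, Finset.sum_sub_distrib]
      exact sub_eq_zero.2 he
    have h4 := Fintype.linearIndependent_iff.1 hl _ h3
    ext j
    have := h4 j
    omega
  · intro m hm
    have e1 : ∏ i ∈ m.support, z i ^ m i = ∏ i, z i ^ m i := by
      apply Finset.prod_subset (Finset.subset_univ _)
      intro i _ hi
      rw [Finsupp.notMem_support_iff.1 hi, pow_zero]
    rw [e1]
    have h5 := HF.of_mem_homFrac (𝒜 := 𝒜) (p.coeff m).2
    have h6 := HF.prod (𝒜 := 𝒜) Finset.univ (fun j => (m j : ℤ) • l j) (fun j => z j ^ m j) (by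
      intro j _
      have := (hz j).pow (m j)
      rw [natCast_zsmul]; exact this)
    have h7 := h5.mul h6
    rw [zero_add] at h7
    exact h7

end

theorem main : S_gr := by
  classical
  intro k A _ _ _ _ _ r 𝒜 _
  -- homogeneous generators
  obtain ⟨S, hS⟩ := (inferInstance : Algebra.FiniteType k A)
  obtain ⟨G, hG, hG0, hGd⟩ : ∃ G : Finset A, Algebra.adjoin k (G : Set A) = ⊤ ∧
      (∀ g ∈ G, g ≠ 0) ∧ ∀ g ∈ G, ∃ d, g ∈ 𝒜 d := by
    refine ⟨(S.biUnion fun s => (DirectSum.decompose 𝒜 s).support.image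
      fun d => ((DirectSum.decompose 𝒜 s) d : A)), ?_, ?_, ?_⟩
    · rw [eq_top_iff, ← hS]
      apply Algebra.adjoin_le
      intro s hs
      rw [← DirectSum.sum_support_decompose 𝒜 s]
      apply Subalgebra.sum_mem
      intro d hd
      apply Algebra.subset_adjoin
      rw [Finset.mem_coe, Finset.mem_biUnion]
      exact ⟨s, hs, Finset.mem_image.2 ⟨d, hd, rfl⟩⟩
    · intro g hg
      obtain ⟨s, hs, hg⟩ := Finset.mem_biUnion.1 hg
      obtain ⟨d, hd, rfl⟩ := Finset.mem_image.1 hg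
      intro h0
      rw [DFinsupp.mem_support_iff] at hd
      exact hd (Subtype.ext h0)
    · intro g hg
      obtain ⟨s, hs, hg⟩ := Finset.mem_biUnion.1 hg
      obtain ⟨d, hd, rfl⟩ := Finset.mem_image.1 hg
      exact ⟨d, SetLike.coe_mem _⟩
  let m := G.card
  let a : Fin m → A := fun b => (G.equivFin.symm b : A)
  have hag : Set.range a = (G : Set A) := by
    ext x
    constructor
    · rintro ⟨b, rfl⟩
      exact (G.equivFin.symm b).2
    · intro hx
      exact ⟨G.equivFin ⟨x, hx⟩, by simp [a]⟩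
  have ha0 : ∀ b, a b ≠ 0 := fun b => hG0 _ (G.equivFin.symm b).2
  have had : ∀ b, ∃ d, a b ∈ 𝒜 d := fun b => hGd _ (G.equivFin.symm b).2
  choose d hd using had
  let L : Submodule ℤ (Fin r → ℤ) := Submodule.span ℤ (Set.range d)
  obtain ⟨n, bL⟩ := Submodule.basisOfPid (Pi.basisFun ℤ (Fin r)) L
  have hL : ∀ l ∈ L, ∃ x : FractionRing A, x ≠ 0 ∧ HF 𝒜 l x := by
    intro l hl
    induction hl using Submodule.span_induction with
    | mem l hl =>
      obtain ⟨b, rfl⟩ := hl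
      exact ⟨_, am_ne (ha0 b), HF.of_mem (hd b)⟩
    | zero => exact ⟨1, one_ne_zero, HF.one⟩
    | add l l' _ _ ih ih' =>
      obtain ⟨x, hx0, hx⟩ := ih
      obtain ⟨y, hy0, hy⟩ := ih'
      exact ⟨x * y, mul_ne_zero hx0 hy0, hx.mul hy⟩
    | smul c l _ ih =>
      obtain ⟨x, hx0, hx⟩ := ih
      exact ⟨x ^ c, zpow_ne_zero _ hx0, hx.zpow hx0 c⟩
  choose z hz0 hz using fun j : Fin n => hL (bL j : Fin r → ℤ) (bL j).2
  have hdL : ∀ b, d b ∈ L := fun b => Submodule.subset_span ⟨b, rfl⟩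
  let c : Fin m → Fin n → ℤ := fun b j => bL.repr ⟨d b, hdL b⟩ j
  have hc : ∀ b, ∑ j, c b j • (bL j : Fin r → ℤ) = d b := by
    intro b
    have h1 := bL.sum_repr ⟨d b, hdL b⟩
    have h2 : ((∑ j, c b j • bL j : L) : Fin r → ℤ) = d b :=
      congrArg (Subtype.val : L → (Fin r → ℤ)) h1
    rw [AddSubmonoidClass.coe_finsetSum] at h2
    exact h2
  have hP : ∀ b, HF 𝒜 (d b) (∏ j, z j ^ c b j) := by
    intro b
    have h1 := HF.prod (𝒜 := 𝒜) Finset.univ (fun j => c b j • (bL j : Fin r → ℤ))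
      (fun j => z j ^ c b j) (fun j _ => (hz j).zpow (hz0 j) _)
    rw [hc b] at h1
    exact h1
  have hP0 : ∀ b, ∏ j, z j ^ c b j ≠ 0 := fun b =>
    Finset.prod_ne_zero_iff.2 fun j _ => zpow_ne_zero _ (hz0 j)
  have hh : ∀ b, algebraMap A (FractionRing A) (a b) * (∏ j, z j ^ c b j)⁻¹ ∈ homFrac 𝒜 := by
    intro b
    apply HF.mem
    have h1 := (HF.of_mem (hd b)).mul ((hP b).inv (hP0 b))
    rw [add_neg_cancel] at h1
    exact h1
  refine ⟨n, z, m, fun b => ⟨_, hh b⟩, c, ?_, ?_, ?_⟩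
  · refine algInd (𝒜 := 𝒜) z (fun j => (bL j : Fin r → ℤ)) ?_ hz hz0
    have h1 := bL.linearIndependent
    exact h1.map' L.subtype (Submodule.ker_subtype L)
  · intro b h0
    have h1 : algebraMap A (FractionRing A) (a b) * (∏ j, z j ^ c b j)⁻¹ = 0 :=
      congrArg Subtype.val h0
    exact mul_ne_zero (am_ne (ha0 b)) (inv_ne_zero (hP0 b)) h1
  · have h1 : (Set.range fun b => ((⟨_, hh b⟩ : homFrac 𝒜) : FractionRing A) *
        ∏ j, z j ^ c b j) = (IsScalarTower.toAlgHom k A (FractionRing A)) '' (Set.range a) := by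
      rw [← Set.range_comp]
      congr 1
      funext b
      show algebraMap A (FractionRing A) (a b) * (∏ j, z j ^ c b j)⁻¹ * ∏ j, z j ^ c b j = _
      rw [inv_mul_cancel_right₀ (hP0 b)]
      rfl
    rw [h1, ← AlgHom.map_adjoin, hag, hG, Algebra.map_top]

end Pool.Agent.W466.RS.Gr
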